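import Pool.Agent.Q183.LE.Cay
import Pool.Agent.Q183.LE.Two

/-!
# The Lie exponent of `SL(n, ℝ)` is finite exactly for `n ≥ 3`

`lieExponent n` is the Lie exponent `ω(SL(n, ℝ)) ∈ [0, ∞]`: the infimum of
`(n - 1) / ((d₁ + d₂ + d₃) / 3 - ((n² - 1) - (n - 1)) / 2)` over all `d₁, d₂, d₃` for which the
denominator is positive and there are submanifolds of `SL(n, ℝ)` of these dimensions with the triple
product property. It is finite iff `n ≥ 3`; for `n ≥ 3` it is at most `3 (n - 1)`, and for `n = 2`
any submanifolds with the triple product property have total dimension at most `3`.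

For `n ≥ 3`: the unipotent upper triangular matrices, the unipotent lower triangular matrices and
the set of all `c(s) κ`, `c(s) = diag(e^s, e^{-2s}, 1, …, 1, e^s)`, `κ` a rotation without eigenvalue
`-1` (Cayley chart). For `n = 2`: if the three right translated tangent spaces span `sl₂` somewhere,
the implicit function theorem gives a second solution of `s t u = 1`; otherwise one of the
submanifolds has dimension `2` and its tangent spaces contain those of another one, and an ordinary
differential equation shows that it contains a translate of a curve of that one.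
-/

set_option autoImplicit false

namespace Pool.Agent.Results.MP_9660fa_lc.FiniteExactlyFromThree

open Pool.Agent.Q183.LE
open scoped ENNReal

theorem result :
    (∀ n : ℕ, 2 ≤ n → (lieExponent n < ⊤ ↔ 3 ≤ n)) ∧
    (∀ n : ℕ, 3 ≤ n → lieExponent n ≤ ENNReal.ofReal (3 * ((n : ℝ) - 1))) ∧
    (∀ d₁ d₂ d₃ : ℕ, Realised 2 d₁ d₂ d₃ → d₁ + d₂ + d₃ ≤ 3) := by
  refine ⟨fun n hn => ⟨fun h => ?_, fun h => lieExponent_lt_top_of_three h⟩, ?_, ?_⟩
  · by_contra h3
    have h2 : n = 2 := by omega
    subst h2
    rw [lieExponent_two] at h
    exact lt_irrefl _ h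
  · intro n hn
    unfold lieExponent
    refine iInf_le_of_le (Fintype.card (Pr n)) (iInf_le_of_le (Fintype.card (Pr n))
      (iInf_le_of_le (1 + Fintype.card (Pr n)) (iInf_le_of_le ⟨realised_three hn, ?_⟩ ?_)))
    · rw [denom_three hn]
      norm_num
    · rw [denom_three hn]
      apply ENNReal.ofReal_le_ofReal
      apply le_of_eq
      ring
  · intro d₁ d₂ d₃ h
    by_contra h4
    exact not_realised_two (by omega) h

end Pool.Agent.Results.MP_9660fa_lc.FiniteExactlyFromThree
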